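import Pool.Agent.Zk29.Po.D

/-!
# Families of polynomials: the free critical points stay free
-/

set_option autoImplicit false
open Set Filter Topology Metric Polynomial

namespace Pool.Agent.Zk63.Po

open Pool.Agent.Zk29.Po
open Pool.Agent.H792R2.CE Pool.Agent.H792R2.CE.C2x Pool.Agent.Zk29.Rat
open Pool.Agent.H713R5.QJ (ev Good opg_holds opg_growth opg_escape)

theorem hasDeriv_iter (Q : ℂ[X]) (k : ℕ) (w : ℂ) : HasDerivAt ((ev Q)^[k])
    (∏ i ∈ Finset.range k, (derivative Q).eval ((ev Q)^[i] w)) w := by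
  induction k with
  | zero =>
    rw [Finset.prod_range_zero]
    exact hasDerivAt_id w
  | succ k ih =>
    rw [Finset.prod_range_succ, mul_comm, Function.iterate_succ']
    exact HasDerivAt.comp w (Q.hasDerivAt ((ev Q)^[k] w)) ih

/-- the good points are backward invariant -/
theorem good_of_step (T : ℂ[X]) (z : ℂ) (h : Good (ev T) (ev T z)) : Good (ev T) z := by
  rcases h with h | ⟨P, hP, w, h1, h2, h3⟩
  · left
    rw [← tendsto_add_atTop_iff_nat 1]
    exact h
  · right
    obtain ⟨q, rfl⟩ : ∃ q, P = q + 1 := ⟨P - 1, by omega⟩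
    refine ⟨q + 1, hP, (ev T)^[q] w, ?_, ?_, ?_⟩
    · rw [← Function.iterate_add_apply, add_comm, Function.iterate_add_apply, h1]
    · have hfw : (ev T) ((ev T)^[q] w) = w := by
        rw [← Function.iterate_succ_apply' (ev T) q w, h1]
      rw [(hasDeriv_iter T (q + 1) _).deriv, Finset.prod_range_succ']
      rw [(hasDeriv_iter T (q + 1) _).deriv, Finset.prod_range_succ] at h2
      have h4 : ∀ i ∈ Finset.range q, (derivative T).eval ((ev T)^[i + 1] ((ev T)^[q] w)) =
          (derivative T).eval ((ev T)^[i] w) := by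
        intro i _
        rw [Function.iterate_succ_apply, hfw]
      rw [Finset.prod_congr rfl h4]
      exact h2
    · rw [← tendsto_add_atTop_iff_nat 1]
      have hc : Continuous ((ev T)^[q]) := by
        have : Continuous (ev T) := T.continuous
        exact this.iterate q
      have h5 := (hc.tendsto w).comp h3
      refine h5.congr fun k => ?_
      simp only [Function.comp_apply]
      rw [← Function.iterate_add_apply, ← Function.iterate_succ_apply]
      congr 1
      rw [Nat.succ_eq_add_one]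
      ring

variable {T : ℂ[X]} {k : ℕ}

theorem deg_fam (hk : k < T.natDegree) (t : ℂ) : (T + C t * X ^ k).natDegree = T.natDegree := by
  apply natDegree_add_eq_left_of_natDegree_lt
  exact (natDegree_C_mul_X_pow_le t k).trans_lt hk

theorem coeff_fam (T : ℂ[X]) (k : ℕ) (t : ℂ) (j : ℕ) :
    ‖(T + C t * X ^ k).coeff j - T.coeff j‖ ≤ ‖t‖ := by
  rw [coeff_add, add_sub_cancel_left, coeff_C_mul, coeff_X_pow]
  split_ifs <;> simp

/-- far points are good -/
theorem far_fam (hT : 2 ≤ T.natDegree) (hk : k < T.natDegree) : ∃ R : ℝ,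
    ∀ t : ℂ, ‖t‖ < 1 → ∀ z : ℂ, R ≤ ‖z‖ → Good (ev (T + C t * X ^ k)) z := by
  have hT0 : T.coeff T.natDegree ≠ 0 := by
    apply leadingCoeff_ne_zero.2
    rintro rfl
    simp at hT
  obtain ⟨c, hc⟩ : ∃ c : ℝ, c = ‖T.coeff T.natDegree‖ := ⟨_, rfl⟩
  have hc0 : 0 < c := by rw [hc]; exact norm_pos_iff.2 hT0
  obtain ⟨B, hB⟩ : ∃ B : ℝ, B = ∑ j ∈ Finset.range T.natDegree, (‖T.coeff j‖ + 1) := ⟨_, rfl⟩
  refine ⟨max 1 ((B + 2) / c), fun t ht z hz => ?_⟩
  left
  have hR1 : (1 : ℝ) ≤ max 1 ((B + 2) / c) := le_max_left _ _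
  refine opg_escape (k := 0) hR1 (fun w hw => ?_) hz
  have hdeg := deg_fam hk t
  refine opg_growth (T + C t * X ^ k) (c := c) (B := B) (R := max 1 ((B + 2) / c)) (by omega)
    ?_ ?_ hR1 ?_ hc0 hw
  · rw [hdeg, coeff_add, coeff_C_mul, coeff_X_pow, if_neg (by omega), mul_zero, add_zero, hc]
  · rw [hdeg, hB]
    refine Finset.sum_le_sum fun j _ => ?_
    have h1 := coeff_fam T k t j
    have h2 : ‖(T + C t * X ^ k).coeff j‖ ≤ ‖T.coeff j‖ + ‖(T + C t * X ^ k).coeff j - T.coeff j‖ := by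
      have := norm_add_le (T.coeff j) ((T + C t * X ^ k).coeff j - T.coeff j)
      rwa [add_sub_cancel] at this
    linarith
  · have h3 : (B + 2) / c ≤ max 1 ((B + 2) / c) := le_max_right _ _
    have h4 := mul_le_mul_of_nonneg_left h3 hc0.le
    rwa [mul_div_cancel₀ _ hc0.ne'] at h4

/-- good points stay good -/
theorem stab_fam (hT : 2 ≤ T.natDegree) (hk : k < T.natDegree) {z : ℂ} (hz : Good (ev T) z) :
    ∀ᶠ p : ℂ × ℂ in 𝓝 (0, z), Good (ev (T + C p.1 * X ^ k)) p.2 := by
  obtain ⟨σ, hσ, h⟩ := opg_holds T z hT hz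
  have h1 : ball (0 : ℂ) σ ×ˢ ball z σ ∈ 𝓝 ((0 : ℂ), z) :=
    prod_mem_nhds (ball_mem_nhds _ hσ) (ball_mem_nhds _ hσ)
  filter_upwards [h1] with p hp
  refine h _ (deg_fam hk _) (fun j => ?_) _ hp.2
  have h2 : ‖p.1‖ < σ := by simpa using hp.1
  exact (coeff_fam T k p.1 j).trans_lt h2

/-- the branches of the critical points -/
theorem branch_fam {c : ℂ} (h0 : (derivative T).eval c = 0)
    (h1 : (derivative (derivative T)).eval c ≠ 0) :
    ∃ (τ : ℂ → ℂ) (ρ : ℝ), 0 < ρ ∧ τ 0 = c ∧ (∀ b, ‖b‖ < ρ → DifferentiableAt ℂ τ b) ∧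
      ∀ z b, ‖z - c‖ < ρ → ‖b‖ < ρ → (derivative (T + C b * X ^ k)).eval z = 0 → z = τ b := by
  have hT'0 : derivative T ≠ 0 := by
    intro h
    rw [h] at h1
    simp at h1
  by_cases h : (derivative (X ^ k : ℂ[X])).eval c = 0
  · obtain ⟨A, hA⟩ := dvd_iff_isRoot.2 h0
    obtain ⟨B, hB⟩ := dvd_iff_isRoot.2 h
    have hAc : A.eval c ≠ 0 := by
      intro h2
      apply h1
      rw [hA, derivative_mul]
      simp [h2]
    have hcont : Continuous (fun p : ℂ × ℂ => A.eval p.2 + p.1 * B.eval p.2) := by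
      have c1 : Continuous (fun p : ℂ × ℂ => A.eval p.2) := A.continuous.comp continuous_snd
      have c2 : Continuous (fun p : ℂ × ℂ => B.eval p.2) := B.continuous.comp continuous_snd
      fun_prop
    have hne : ∀ᶠ p : ℂ × ℂ in 𝓝 (0, c), A.eval p.2 + p.1 * B.eval p.2 ≠ 0 := by
      refine hcont.continuousAt.eventually_ne ?_
      simpa using hAc
    obtain ⟨ρ, hρ, hρs⟩ := Metric.eventually_nhds_iff.1 hne
    refine ⟨fun _ => c, ρ, hρ, rfl, fun b _ => differentiableAt_const c, fun z b hz hb hw => ?_⟩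
    have h2 := hρs (y := (b, z)) (by
      rw [Prod.dist_eq, max_lt_iff]
      exact ⟨by rwa [dist_zero_right], by rwa [dist_eq_norm]⟩)
    have h3 : derivative (T + C b * X ^ k) = (X - C c) * (A + C b * B) := by
      rw [derivative_add, derivative_C_mul, hA, hB]
      ring
    rw [h3] at hw
    simp only [eval_mul, eval_sub, eval_X, eval_C, eval_add] at hw
    rcases mul_eq_zero.1 hw with h4 | h4
    · exact sub_eq_zero.1 h4
    · exact absurd h4 h2
  · have hmul : (wr T 1).rootMultiplicity c = 1 := by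
      rw [Pool.Agent.Zk29.Po.wr_one]
      have h2 : 0 < (derivative T).rootMultiplicity c := (rootMultiplicity_pos hT'0).2 h0
      have h3 : ¬ 1 < (derivative T).rootMultiplicity c := by
        intro h4
        exact h1 ((one_lt_rootMultiplicity_iff_isRoot hT'0).1 h4).2
      omega
    obtain ⟨τ, t', ρ, hρ, -, hτ0, -, hτD, -, hτuniq⟩ := A1_branch (P := T) (Q := 1) (H := X ^ k)
      (G := 0) (c := c) (k := 1) le_rfl hmul (by rw [Pool.Agent.Zk29.Po.wr_one]; exact hT'0) (by
        have h5 : wr (X ^ k) 1 + wr T 0 = derivative (X ^ k : ℂ[X]) := by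
          rw [Pool.Agent.Zk29.Po.wr_one]
          simp [wr]
        rw [h5]
        exact h)
    simp only [pow_one, mul_zero, add_zero, Pool.Agent.Zk29.Po.wr_one] at hτuniq
    refine ⟨τ, ρ, hρ, hτ0, hτD, fun z b h1 h2 h3 => ?_⟩
    obtain ⟨ω, hω, h4⟩ := hτuniq z b h1 h2 h3
    rw [h4, hω, one_mul]

theorem fam : S_FAM := by
  intro T U U₁ O hna k hk
  have hd : 2 ≤ T.natDegree := O.d2
  have hT'0 : derivative T ≠ 0 := by
    intro h
    have := derivative_eq_zero.1 h
    omega
  have hFf : (Fp T).Finite := by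
    refine Set.Finite.subset ((derivative T).roots.toFinset.finite_toSet) fun z hz => ?_
    simp only [Finset.mem_coe, Multiset.mem_toFinset]
    exact (mem_roots hT'0).2 hz.1
  have hq : ∀ t : ℂ, (1 : ℂ[X]) + C t * 0 = 1 := by
    intro t
    simp
  have hUc : IsCompact (closure U) := O.trap.bdd.isCompact_closure
  have hsim : ∀ z ∈ Fp T, (derivative (derivative T)).eval z ≠ 0 := by
    intro z hz
    have := O.sim z (by rw [Fa_one]; exact hz)
    rwa [Pool.Agent.Zk29.Po.wr_one] at this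
  have hw : ∀ z ∈ closure U, (derivative T).eval z = 0 → z ∈ Fp T := by
    intro z hz h
    rw [← Fa_one]
    exact O.w z hz (by rw [Pool.Agent.Zk29.Po.wr_one]; exact h)
  have hbr : ∀ c ∈ Fp T, ∃ (τ : ℂ → ℂ) (ρ : ℝ), 0 < ρ ∧ τ 0 = c ∧
      (∀ b, ‖b‖ < ρ → DifferentiableAt ℂ τ b) ∧
      ∀ z b, ‖z - c‖ < ρ → ‖b‖ < ρ → (derivative (T + C b * X ^ k)).eval z = 0 → z = τ b :=
    fun c hc => branch_fam hc.1 (hsim c hc)
  choose! τ ρ hρ hτ0 hτD hτuniq using hbr
  have hst : ∀ z : ℂ, Good (ev T) z → ∀ᶠ p : ℂ × ℂ in 𝓝 (0, z),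
      Good (ev (T + C p.1 * X ^ k)) p.2 := fun z hz => stab_fam hd hk hz
  -- the conditions
  have hfc : Continuous (fun p : ℂ × ℂ => (T + C p.1 * X ^ k).eval p.2) := by
    simp only [Polynomial.eval_add, Polynomial.eval_mul, Polynomial.eval_C, Polynomial.eval_pow,
      Polynomial.eval_X]
    have h1 : Continuous (fun p : ℂ × ℂ => T.eval p.2) := T.continuous.comp continuous_snd
    fun_prop
  have e3 : ∀ᶠ t : ℂ in 𝓝 0, ∀ z ∈ closure U ∩ Uᶜ, (T + C t * X ^ k).eval z ∉ closure U := by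
    have h1 : IsCompact (closure U ∩ Uᶜ) := hUc.inter_right O.trap.opn.isClosed_compl
    refine h1.eventually_forall_of_forall_eventually fun z hz => ?_
    refine hfc.continuousAt.eventually_mem (s := (closure U)ᶜ) ?_
    refine isClosed_closure.isOpen_compl.mem_nhds ?_
    change (T + C (0 : ℂ) * X ^ k).eval z ∉ closure U
    have h2 := O.bd z hz.1 hz.2
    rw [rf_one'] at h2
    simpa [ev] using h2
  obtain ⟨R, hR⟩ := far_fam hd hk
  have e4 : ∀ᶠ t : ℂ in 𝓝 0, ∀ z ∉ U₁, Good (ev (T + C t * X ^ k)) z := by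
    have h1 : IsCompact (closedBall (0 : ℂ) R ∩ U₁ᶜ) :=
      (isCompact_closedBall 0 R).inter_right O.o.isClosed_compl
    have h2 : ∀ᶠ t : ℂ in 𝓝 0, ∀ z ∈ closedBall (0 : ℂ) R ∩ U₁ᶜ,
        Good (ev (T + C t * X ^ k)) z := by
      refine h1.eventually_forall_of_forall_eventually fun z hz => hst z ?_
      by_contra h
      exact hz.2 (O.n z h)
    have h3 : ∀ᶠ t : ℂ in 𝓝 0, ‖t‖ < 1 := by
      have h4 : ‖(0 : ℂ)‖ < 1 := by rw [norm_zero]; exact one_pos
      exact (continuous_norm.tendsto (0 : ℂ)).eventually (Iio_mem_nhds h4)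
    filter_upwards [h2, h3] with t ht1 ht2 z hz
    by_cases hzR : ‖z‖ ≤ R
    · exact ht1 z ⟨by rw [mem_closedBall, dist_zero_right]; exact hzR, hz⟩
    · exact hR t ht2 z (not_le.1 hzR).le
  have hwc : Continuous (fun p : ℂ × ℂ => (derivative (T + C p.1 * X ^ k)).eval p.2) := by
    simp only [derivative_add, derivative_C_mul, Polynomial.eval_add, Polynomial.eval_mul,
      Polynomial.eval_C]
    have c1 : Continuous (fun p : ℂ × ℂ => (derivative T).eval p.2) :=
      (derivative T).continuous.comp continuous_snd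
    have c2 : Continuous (fun p : ℂ × ℂ => (derivative (X ^ k : ℂ[X])).eval p.2) :=
      (derivative (X ^ k : ℂ[X])).continuous.comp continuous_snd
    fun_prop
  have hwc' : Continuous (fun p : ℂ × ℂ =>
      (derivative (derivative (T + C p.1 * X ^ k))).eval p.2) := by
    simp only [derivative_add, derivative_C_mul, Polynomial.eval_add, Polynomial.eval_mul,
      Polynomial.eval_C]
    have c1 : Continuous (fun p : ℂ × ℂ => (derivative (derivative T)).eval p.2) :=
      (derivative (derivative T)).continuous.comp continuous_snd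
    have c2 : Continuous (fun p : ℂ × ℂ => (derivative (derivative (X ^ k : ℂ[X]))).eval p.2) :=
      (derivative (derivative (X ^ k : ℂ[X]))).continuous.comp continuous_snd
    fun_prop
  have e5 : ∀ᶠ t : ℂ in 𝓝 0, ∀ z ∈ closure U,
      (derivative (T + C t * X ^ k)).eval z = 0 → ∃ c ∈ Fp T, z = τ c t := by
    refine hUc.eventually_forall_of_forall_eventually fun z hz => ?_
    by_cases h0 : (derivative T).eval z = 0
    · have hzc := hw z hz h0
      have hnear : ∀ᶠ p : ℂ × ℂ in 𝓝 (0, z), ‖p.2 - z‖ < ρ z ∧ ‖p.1‖ < ρ z := by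
        refine Eventually.and ?_ ?_
        · have h1 : Continuous (fun p : ℂ × ℂ => ‖p.2 - z‖) := by fun_prop
          have h2 : ‖(((0 : ℂ), z) : ℂ × ℂ).2 - z‖ < ρ z := by simpa using hρ z hzc
          exact (h1.tendsto ((0 : ℂ), z)).eventually (Iio_mem_nhds h2)
        · have h1 : Continuous (fun p : ℂ × ℂ => ‖p.1‖) := by fun_prop
          have h2 : ‖(((0 : ℂ), z) : ℂ × ℂ).1‖ < ρ z := by simpa using hρ z hzc
          exact (h1.tendsto ((0 : ℂ), z)).eventually (Iio_mem_nhds h2)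
      filter_upwards [hnear] with p hp hw
      exact ⟨z, hzc, hτuniq z hzc p.2 p.1 hp.1 hp.2 hw⟩
    · have h1 : ∀ᶠ p : ℂ × ℂ in 𝓝 (0, z), (derivative (T + C p.1 * X ^ k)).eval p.2 ≠ 0 := by
        refine hwc.continuousAt.eventually_ne ?_
        change (derivative (T + C (0 : ℂ) * X ^ k)).eval z ≠ 0
        simpa using h0
      filter_upwards [h1] with p hp h2 using absurd h2 hp
  have e5' : ∀ᶠ t : ℂ in 𝓝 0, ∀ z ∈ closure U,
      (derivative (T + C t * X ^ k)).eval z = 0 →
      (derivative (derivative (T + C t * X ^ k))).eval z ≠ 0 := by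
    refine hUc.eventually_forall_of_forall_eventually fun z hz => ?_
    by_cases h0 : (derivative T).eval z = 0
    · have h1 : ∀ᶠ p : ℂ × ℂ in 𝓝 (0, z),
          (derivative (derivative (T + C p.1 * X ^ k))).eval p.2 ≠ 0 := by
        refine hwc'.continuousAt.eventually_ne ?_
        change (derivative (derivative (T + C (0 : ℂ) * X ^ k))).eval z ≠ 0
        simpa using hsim z (hw z hz h0)
      filter_upwards [h1] with p hp _ using hp
    · have h1 : ∀ᶠ p : ℂ × ℂ in 𝓝 (0, z), (derivative (T + C p.1 * X ^ k)).eval p.2 ≠ 0 := by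
        refine hwc.continuousAt.eventually_ne ?_
        change (derivative (T + C (0 : ℂ) * X ^ k)).eval z ≠ 0
        simpa using h0
      filter_upwards [h1] with p hp h2 using absurd h2 hp
  have e7 : ∀ᶠ t : ℂ in 𝓝 0, ∀ c ∈ Fp T, ‖t‖ < ρ c := by
    rw [eventually_all_finite hFf]
    intro c hc
    have h2 : ‖(0 : ℂ)‖ < ρ c := by rw [norm_zero]; exact hρ c hc
    exact (continuous_norm.tendsto (0 : ℂ)).eventually (Iio_mem_nhds h2)
  -- the coefficients
  unfold FewP at hna
  push Not at hna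
  obtain ⟨ε, hε, hε'⟩ := hna
  have e6 : ∀ᶠ t : ℂ in 𝓝 0, ‖t‖ < ε := by
    have h2 : ‖(0 : ℂ)‖ < ε := by rw [norm_zero]; exact hε
    exact (continuous_norm.tendsto (0 : ℂ)).eventually (Iio_mem_nhds h2)
  obtain ⟨r', hr', hr's⟩ := Metric.mem_nhds_iff.1
    ((e3.and ((e4.and e5).and e6)).and (e5'.and e7))
  -- the branches are free
  have hfree : ∀ c ∈ Fp T, ∀ t ∈ ball (0 : ℂ) r', ¬ Good (ev (T + C t * X ^ k)) (τ c t) := by
    intro c hc t ht hatt
    obtain ⟨⟨h4, ⟨h6, h7⟩, h8⟩, h9, h10⟩ := hr's ht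
    have hin : ∀ z : ℂ, ¬ Good (ev (T + C t * X ^ k)) z → z ∈ closure U := by
      intro z hz
      by_contra hzU
      apply hz
      apply h6
      intro hy
      exact hzU (subset_closure (O.s (subset_closure hy)))
    have hcard := hε' (T + C t * X ^ k) (deg_fam hk t) (fun z hz => h9 z (hin z hz.2) hz.1)
      (fun i => (coeff_fam T k t i).trans_lt h8)
    have hsub : Fp (T + C t * X ^ k) ⊆ (fun c' => τ c' t) '' (Fp T \ {c}) := by
      intro z hz
      obtain ⟨c', hc', hzc⟩ := h7 z (hin z hz.2) hz.1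
      refine ⟨c', ⟨hc', fun hcc => ?_⟩, hzc.symm⟩
      rw [mem_singleton_iff] at hcc
      rw [hcc] at hzc
      apply hz.2
      rw [hzc]
      exact hatt
    have hfin2 : (Fp T \ {c}).Finite := hFf.subset sdiff_subset
    have h11 : (Fp (T + C t * X ^ k)).ncard ≤ (Fp T \ {c}).ncard :=
      (Set.ncard_le_ncard hsub (hfin2.image _)).trans (Set.ncard_image_le hfin2)
    have h12 : (Fp T \ {c}).ncard < (Fp T).ncard :=
      Set.ncard_sdiff_singleton_lt_of_mem hc hFf
    omega
  refine ⟨r', τ, hr', ?_, ?_, ?_, ?_, ?_, ?_⟩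
  · intro t _ z _
    rw [hq, eval_one]
    exact one_ne_zero
  · intro t ht z hz hzU
    rw [hq, rf_one']
    exact (hr's ht).1.1 z ⟨hz, hzU⟩
  · intro t ht z hz h
    rw [hq, Pool.Agent.Zk29.Po.wr_one] at h
    rw [Fa_one]
    exact (hr's ht).1.2.1.2 z hz h
  · intro c hc
    rw [Fa_one] at hc
    exact hτ0 c hc
  · intro c hc t ht
    rw [Fa_one] at hc
    apply DifferentiableAt.differentiableWithinAt
    exact hτD c hc t ((hr's ht).2.2 c hc)
  · intro c hc t ht j
    rw [Fa_one] at hc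
    rw [hq, rf_one', eval_one]
    refine ⟨?_, one_ne_zero⟩
    have h6 := (hr's ht).1.2.1.1
    have hng : ∀ j : ℕ, ¬ Good (ev (T + C t * X ^ k)) ((ev (T + C t * X ^ k))^[j] (τ c t)) := by
      intro j
      induction j with
      | zero => exact hfree c hc t ht
      | succ j ih =>
        intro h
        rw [Function.iterate_succ_apply'] at h
        exact ih (good_of_step _ _ h)
    by_contra h
    exact hng j (h6 _ h)

end Pool.Agent.Zk63.Po
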